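import Pool.Agent.EWG.StmtsB

/-!
Row TY2 of the squad EWG (problem MP_b66c3b_nt): the bilinear part on a dyadic block of primes.
-/

set_option autoImplicit false

namespace Pool.Agent.EWG.H11

open Finset Pool.Agent.PrimeFourier
open scoped BigOperators

theorem abs_AV_le (V k : ℕ) : |AV V k| ≤ (k.divisors.card : ℝ) := by
  unfold AV
  refine (Finset.abs_sum_le_sum_abs _ _).trans ?_
  have h1 : ∀ b ∈ k.divisors.filter (fun b => V < b), |((ArithmeticFunction.moebius b : ℤ) : ℝ)| ≤ 1 := by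
    intro b _
    rw [← Int.cast_abs]
    exact_mod_cast ArithmeticFunction.abs_moebius_le_one
  refine (Finset.sum_le_sum h1).trans ?_
  rw [Finset.sum_const, nsmul_eq_mul, mul_one]
  exact_mod_cast Finset.card_filter_le _ _

theorem sum_blocks (g : ℕ → ℝ) (U N : ℕ) :
    ∑ i ∈ range N, ∑ c ∈ Ioc (2 ^ i * U) (2 * (2 ^ i * U)), g c = ∑ c ∈ Ioc U (2 ^ N * U), g c := by
  induction N with
  | zero => simp
  | succ N ih =>
    rw [Finset.sum_range_succ, ih]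
    have e : 2 ^ (N + 1) * U = 2 * (2 ^ N * U) := by ring
    rw [e]
    refine Finset.sum_Ioc_consecutive _ ?_ ?_
    · exact Nat.le_mul_of_pos_left U (by positivity)
    · omega

theorem S4_blocks (U V x N : ℕ) (f : ℕ → ℝ) (hUx : U ≤ x) (hN : x ≤ 2 ^ N * U) :
    S4 U V x f = ∑ i ∈ range N, ∑ c ∈ Ioc (2 ^ i * U) (2 * (2 ^ i * U)),
      ∑ k ∈ Ioc V (x / c), ArithmeticFunction.vonMangoldt c * AV V k * f (c * k) := by
  rw [sum_blocks (fun c => ∑ k ∈ Ioc V (x / c), ArithmeticFunction.vonMangoldt c * AV V k * f (c * k)),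
    ← Finset.sum_Ioc_consecutive _ hUx hN]
  have h0 : ∑ c ∈ Ioc x (2 ^ N * U), ∑ k ∈ Ioc V (x / c),
      ArithmeticFunction.vonMangoldt c * AV V k * f (c * k) = 0 := by
    refine Finset.sum_eq_zero fun c hc => ?_
    rw [Nat.div_eq_of_lt (Finset.mem_Ioc.1 hc).1, Finset.Ioc_eq_empty (by omega), Finset.sum_empty]
  rw [h0, add_zero]
  rfl

/-- the coefficients of the second variable -/
noncomputable def bet (V k : ℕ) : ℝ := if V < k then AV V k else 0

theorem blk_eq (V x C : ℕ) (f : ℕ → ℝ) (hC : 0 < C) :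
    ∑ c ∈ Ioc C (2 * C), ∑ k ∈ Ioc V (x / c), ArithmeticFunction.vonMangoldt c * AV V k * f (c * k) =
    ∑ c ∈ Ioc C (2 * C), ∑ k ∈ Ioc 0 (x / C),
      (if c ≤ x / k then ArithmeticFunction.vonMangoldt c * bet V k * f (c * k) else 0) := by
  refine Finset.sum_congr rfl fun c hc => ?_
  obtain ⟨hc1, _⟩ := Finset.mem_Ioc.1 hc
  have e1 : Ioc V (x / c) = (Ioc 0 (x / C)).filter (fun k => c ≤ x / k ∧ V < k) := by
    ext k
    rw [Finset.mem_filter, Finset.mem_Ioc, Finset.mem_Ioc]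
    constructor
    · rintro ⟨h1, h2⟩
      have hk : 0 < k := by omega
      have h3 : k * c ≤ x := (Nat.le_div_iff_mul_le (by omega)).1 h2
      refine ⟨⟨hk, h2.trans (Nat.div_le_div_left hc1.le hC)⟩, ?_, h1⟩
      rw [Nat.le_div_iff_mul_le hk, mul_comm]
      exact h3
    · rintro ⟨⟨h1, _⟩, h2, h3⟩
      refine ⟨h3, ?_⟩
      rw [Nat.le_div_iff_mul_le (by omega), mul_comm]
      exact (Nat.le_div_iff_mul_le h1).1 h2
  rw [e1, Finset.sum_filter]
  refine Finset.sum_congr rfl fun k _ => ?_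
  unfold bet
  by_cases h1 : c ≤ x / k <;> by_cases h2 : V < k <;> simp [h1, h2]

/-- the sum of squares of the first coefficients -/
theorem sum_alpha (C : ℕ) (Y : ℝ) (hY : Real.log (2 * C : ℕ) ≤ Y) :
    ∑ c ∈ Ioc C (2 * C), ‖((ArithmeticFunction.vonMangoldt c : ℝ) : ℂ)‖ ^ 2 ≤ C * Y ^ 2 := by
  have h1 : ∀ c ∈ Ioc C (2 * C), ‖((ArithmeticFunction.vonMangoldt c : ℝ) : ℂ)‖ ^ 2 ≤ Y ^ 2 := by
    intro c hc
    obtain ⟨h1, h2⟩ := Finset.mem_Ioc.1 hc
    have h3 : (0 : ℝ) ≤ ArithmeticFunction.vonMangoldt c := ArithmeticFunction.vonMangoldt_nonneg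
    rw [Complex.norm_real, Real.norm_eq_abs, abs_of_nonneg h3]
    refine pow_le_pow_left₀ h3 ?_ 2
    refine ArithmeticFunction.vonMangoldt_le_log.trans (le_trans ?_ hY)
    refine Real.log_le_log (by exact_mod_cast (by omega : 0 < c)) (by exact_mod_cast h2)
  refine (Finset.sum_le_sum h1).trans ?_
  rw [Finset.sum_const, Nat.card_Ioc, nsmul_eq_mul]
  have : 2 * C - C = C := by omega
  rw [this]

theorem sum_beta (hT : TauStmt) (V K : ℕ) (Y : ℝ) (hK : 1 ≤ K) (hY1 : 1 ≤ Y) (hY : 1 + Real.log K ≤ Y) :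
    ∑ k ∈ Ioc 0 K, ‖((bet V k : ℝ) : ℂ)‖ ^ 2 ≤ K * (Y ^ 2) ^ 2 := by
  have h1 : ∀ k ∈ Ioc 0 K, ‖((bet V k : ℝ) : ℂ)‖ ^ 2 ≤ ((k.divisors.card : ℝ)) ^ 2 := by
    intro k _
    rw [Complex.norm_real, Real.norm_eq_abs]
    refine pow_le_pow_left₀ (abs_nonneg _) ?_ 2
    unfold bet
    split_ifs
    · exact abs_AV_le V k
    · rw [abs_zero]; positivity
  refine (Finset.sum_le_sum h1).trans ((hT K).trans ?_)
  have h2 : 0 ≤ Real.log (K : ℝ) := Real.log_nonneg (by exact_mod_cast hK)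
  have h3 : (1 + Real.log (K : ℝ)) ^ 3 ≤ Y ^ 3 := pow_le_pow_left₀ (by linarith) hY 3
  have h4 : Y ^ 3 ≤ Y ^ 4 := pow_le_pow_right₀ hY1 (by norm_num)
  have h5 : (Y ^ 2) ^ 2 = Y ^ 4 := by ring
  rw [h5]
  exact mul_le_mul_of_nonneg_left (h3.trans h4) (by positivity)

/-- the polynomial inequality -/
theorem key_ineq (R U V x C K L Y : ℝ) (hR : 0 < R) (hU : 1 ≤ U) (hV : 1 ≤ V) (hx : 1 ≤ x) (hC : 0 ≤ C)
    (hK : 0 ≤ K) (hL0 : 0 ≤ L) (hY : 1 ≤ Y) (hL : L ≤ 48 * R ^ 2 * Y) (h1 : C * K ≤ x) (h2 : C * V ≤ x)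
    (h3 : U * K ≤ x) :
    √((8 * C + L) * (4 * K + L)) * (√C * √K) ≤
      48 * R * Y * (x / R + x / √U + x / √V + √x * R) := by
  rw [← Real.sqrt_mul hC, ← Real.sqrt_mul (by positivity)]
  refine Real.sqrt_le_iff.2 ⟨by positivity, ?_⟩
  have hUp : 0 < U := by linarith
  have hVp : 0 < V := by linarith
  have hsq : (x / R) ^ 2 + (x / √U) ^ 2 + (x / √V) ^ 2 + (√x * R) ^ 2 ≤
      (x / R + x / √U + x / √V + √x * R) ^ 2 := by
    have a1 : 0 ≤ x / R := by positivity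
    have a2 : 0 ≤ x / √U := by positivity
    have a3 : 0 ≤ x / √V := by positivity
    have a4 : 0 ≤ √x * R := by positivity
    nlinarith [mul_nonneg a1 a2, mul_nonneg a1 a3, mul_nonneg a1 a4, mul_nonneg a2 a3,
      mul_nonneg a2 a4, mul_nonneg a3 a4]
  have e1 : (x / √U) ^ 2 = x ^ 2 / U := by rw [div_pow, Real.sq_sqrt hUp.le]
  have e2 : (x / √V) ^ 2 = x ^ 2 / V := by rw [div_pow, Real.sq_sqrt hVp.le]
  have e3 : (√x * R) ^ 2 = x * R ^ 2 := by rw [mul_pow, Real.sq_sqrt (by linarith)]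
  rw [e1, e2, e3] at hsq
  have hbig : (48 * R * Y) ^ 2 * ((x / R) ^ 2 + x ^ 2 / U + x ^ 2 / V + x * R ^ 2) ≤
      (48 * R * Y * (x / R + x / √U + x / √V + √x * R)) ^ 2 := by
    rw [mul_pow (48 * R * Y) (x / R + x / √U + x / √V + √x * R) 2]
    exact mul_le_mul_of_nonneg_left hsq (by positivity)
  refine le_trans ?_ hbig
  have hc1 : C ≤ x / V := (le_div_iff₀ hVp).2 h2
  have hk1 : K ≤ x / U := (le_div_iff₀ hUp).2 (by linarith)
  have hCK : 0 ≤ C * K := by positivity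
  have t1 : (C * K) ^ 2 ≤ x ^ 2 := pow_le_pow_left₀ hCK h1 2
  have t2 : C * (C * K) * L ≤ x ^ 2 / V * (48 * R ^ 2 * Y) := by
    have : C * (C * K) ≤ x / V * x := mul_le_mul hc1 h1 hCK (by positivity)
    calc C * (C * K) * L ≤ (x / V * x) * (48 * R ^ 2 * Y) :=
          mul_le_mul this hL hL0 (by positivity)
      _ = _ := by ring
  have t3 : K * (C * K) * L ≤ x ^ 2 / U * (48 * R ^ 2 * Y) := by
    have : K * (C * K) ≤ x / U * x := mul_le_mul hk1 h1 hCK (by positivity)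
    calc K * (C * K) * L ≤ (x / U * x) * (48 * R ^ 2 * Y) :=
          mul_le_mul this hL hL0 (by positivity)
      _ = _ := by ring
  have t4 : (C * K) * L ^ 2 ≤ x * (48 * R ^ 2 * Y) ^ 2 :=
    mul_le_mul h1 (pow_le_pow_left₀ hL0 hL 2) (by positivity) (by linarith)
  have e5 : (8 * C + L) * (4 * K + L) * (C * K) =
      32 * (C * K) ^ 2 + 8 * (C * (C * K) * L) + 4 * (K * (C * K) * L) + (C * K) * L ^ 2 := by ring
  rw [e5]
  have e6 : (48 * R * Y) ^ 2 * ((x / R) ^ 2 + x ^ 2 / U + x ^ 2 / V + x * R ^ 2) =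
      2304 * Y ^ 2 * x ^ 2 + 48 * Y * (x ^ 2 / U * (48 * R ^ 2 * Y)) +
        48 * Y * (x ^ 2 / V * (48 * R ^ 2 * Y)) + x * (48 * R ^ 2 * Y) ^ 2 := by
    field_simp
    ring
  rw [e6]
  have hY2 : 1 ≤ Y ^ 2 := one_le_pow₀ hY
  have hx2 : 0 ≤ x ^ 2 := by positivity
  have f1 : 32 * (C * K) ^ 2 ≤ 2304 * Y ^ 2 * x ^ 2 := by nlinarith
  have g2 : 0 ≤ x ^ 2 / V * (48 * R ^ 2 * Y) := by positivity
  have g3 : 0 ≤ x ^ 2 / U * (48 * R ^ 2 * Y) := by positivity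
  have f2 : 8 * (C * (C * K) * L) ≤ 48 * Y * (x ^ 2 / V * (48 * R ^ 2 * Y)) := by nlinarith
  have f3 : 4 * (K * (C * K) * L) ≤ 48 * Y * (x ^ 2 / U * (48 * R ^ 2 * Y)) := by nlinarith
  linarith

/-- one block -/
theorem block_bound (hB : BltStmt) (hT : TauStmt) (R U V x C : ℕ) (P : Finset ℕ) (hR : 0 < R) (hRx : R ≤ x)
    (hU : 1 ≤ U) (hV : 1 ≤ V) (hUC : U ≤ C) (hP : ∀ l ∈ P, l.Prime ∧ R < l ∧ l ≤ 2 * R) :
    ∑ l ∈ P, |∑ c ∈ Ioc C (2 * C), ∑ k ∈ Ioc V (x / c),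
        ArithmeticFunction.vonMangoldt c * AV V k * D l (c * k)| ≤
      960 * (1 + Real.log x) ^ 5 * ((x : ℝ) / R + x / √U + x / √V + √x * R) := by
  have hx1 : (1 : ℝ) ≤ x := by exact_mod_cast (by omega : 1 ≤ x)
  have hlx : 0 ≤ Real.log x := Real.log_nonneg hx1
  have hR1 : (0 : ℝ) < R := by exact_mod_cast hR
  have hU1 : (1 : ℝ) ≤ U := by exact_mod_cast hU
  have hV1 : (1 : ℝ) ≤ V := by exact_mod_cast hV
  have hC0 : 0 < C := by omega
  by_cases hVK : V ≤ x / C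
  swap
  · have h0 : ∀ l ∈ P, |∑ c ∈ Ioc C (2 * C), ∑ k ∈ Ioc V (x / c),
        ArithmeticFunction.vonMangoldt c * AV V k * D l (c * k)| = 0 := by
      intro l _
      rw [abs_eq_zero]
      refine Finset.sum_eq_zero fun c hc => ?_
      have h1 : x / c ≤ x / C := Nat.div_le_div_left (Finset.mem_Ioc.1 hc).1.le hC0
      rw [Finset.Ioc_eq_empty (by omega), Finset.sum_empty]
    rw [Finset.sum_eq_zero h0]
    positivity
  have hK1 : 1 ≤ x / C := hV.trans hVK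
  have hCK : C * (x / C) ≤ x := Nat.mul_div_le x C
  have hCx : C ≤ x := by nlinarith
  have hKx : x / C ≤ x := Nat.div_le_self x C
  have hCV : C * V ≤ x := (Nat.mul_le_mul_left C hVK).trans hCK
  have hUK : U * (x / C) ≤ x := (Nat.mul_le_mul_right _ hUC).trans hCK
  have hb := hB R C (x / C) P (fun k => x / k)
    (fun c => ((ArithmeticFunction.vonMangoldt c : ℝ) : ℂ)) (fun k => ((bet V k : ℝ) : ℂ)) hR hC0 hP
  have e1 : ∀ l ∈ P, |∑ c ∈ Ioc C (2 * C), ∑ k ∈ Ioc V (x / c),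
        ArithmeticFunction.vonMangoldt c * AV V k * D l (c * k)| =
      ‖∑ c ∈ Ioc C (2 * C), ∑ k ∈ Ioc 0 (x / C), (if c ≤ x / k then
        ((ArithmeticFunction.vonMangoldt c : ℝ) : ℂ) * ((bet V k : ℝ) : ℂ) * ((D l (c * k) : ℝ) : ℂ)
          else 0)‖ := by
    intro l _
    rw [blk_eq V x C (D l) hC0, ← Real.norm_eq_abs, ← Complex.norm_real]
    congr 1
    push_cast
    refine Finset.sum_congr rfl fun c _ => Finset.sum_congr rfl fun k _ => ?_
    split_ifs <;> push_cast <;> rfl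
  rw [Finset.sum_congr rfl e1]
  refine hb.trans ?_
  set Y : ℝ := 1 + Real.log x with hY
  have hY1 : 1 ≤ Y := by rw [hY]; linarith
  have hl2 : Real.log 2 ≤ 1 := by
    have := Real.log_two_lt_d9
    linarith
  have hl3 : Real.log 3 ≤ 2 := by
    have := Real.log_le_sub_one_of_pos (show (0 : ℝ) < 3 by norm_num)
    linarith
  have hCx' : (C : ℝ) ≤ x := by exact_mod_cast hCx
  have hRx' : (R : ℝ) ≤ x := by exact_mod_cast hRx
  have hC1 : (1 : ℝ) ≤ C := by exact_mod_cast hC0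
  have hR1' : (1 : ℝ) ≤ R := by exact_mod_cast hR
  -- the factor from the separation
  have f1 : (8 : ℝ) + 4 * Real.log (2 * C + 1) ≤ 20 * Y := by
    have : Real.log (2 * C + 1) ≤ Real.log (3 * x) := Real.log_le_log (by positivity) (by linarith)
    rw [Real.log_mul (by norm_num) (by positivity)] at this
    rw [hY]
    linarith
  have f2 : (1 : ℝ) + 2 * Real.log (2 * R) ≤ 3 * Y := by
    have h3 : Real.log (2 * (R : ℝ)) ≤ Real.log (2 * x) := Real.log_le_log (by positivity) (by linarith)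
    have h4 : Real.log (2 * (x : ℝ)) = Real.log 2 + Real.log x := Real.log_mul (by norm_num) (by positivity)
    rw [h4] at h3
    rw [hY]
    linarith
  have f2' : (0 : ℝ) ≤ 1 + 2 * Real.log (2 * R) := by
    have : 0 ≤ Real.log (2 * R) := Real.log_nonneg (by linarith)
    linarith
  have fA : √(∑ c ∈ Ioc C (2 * C), ‖((ArithmeticFunction.vonMangoldt c : ℝ) : ℂ)‖ ^ 2) ≤ √C * Y := by
    refine (Real.sqrt_le_sqrt (sum_alpha C Y ?_)).trans ?_
    · have : Real.log ((2 * C : ℕ) : ℝ) ≤ Real.log (2 * x) := by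
        refine Real.log_le_log (by positivity) ?_
        push_cast
        linarith
      rw [Real.log_mul (by norm_num) (by positivity)] at this
      rw [hY]
      linarith
    · rw [Real.sqrt_mul (by positivity), Real.sqrt_sq (by linarith)]
  have fB : √(∑ k ∈ Ioc 0 (x / C), ‖((bet V k : ℝ) : ℂ)‖ ^ 2) ≤ √((x / C : ℕ) : ℝ) * Y ^ 2 := by
    refine (Real.sqrt_le_sqrt (sum_beta hT V (x / C) Y hK1 hY1 ?_)).trans ?_
    · have : Real.log ((x / C : ℕ) : ℝ) ≤ Real.log x :=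
        Real.log_le_log (by exact_mod_cast hK1) (by exact_mod_cast hKx)
      rw [hY]
      linarith
    · rw [Real.sqrt_mul (by positivity), Real.sqrt_sq (by positivity)]
  set L : ℝ := 16 * (R : ℝ) ^ 2 * (1 + 2 * Real.log (2 * R)) with hL
  have hL0 : 0 ≤ L := by rw [hL]; positivity
  have hL1 : L ≤ 48 * (R : ℝ) ^ 2 * Y := by
    rw [hL]
    have : 16 * (R : ℝ) ^ 2 * (1 + 2 * Real.log (2 * R)) ≤ 16 * (R : ℝ) ^ 2 * (3 * Y) :=
      mul_le_mul_of_nonneg_left f2 (by positivity)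
    linarith
  have hk := key_ineq R U V x C ((x / C : ℕ) : ℝ) L Y hR1 hU1 hV1 hx1 (by positivity) (by positivity) hL0 hY1
    hL1 (by exact_mod_cast hCK) (by exact_mod_cast hCV) (by exact_mod_cast hUK)
  set T : ℝ := (x : ℝ) / R + x / √U + x / √V + √x * R with hTdef
  set M : ℝ := √((8 * (C : ℝ) + L) * (4 * ((x / C : ℕ) : ℝ) + L)) with hM
  have hM0 : 0 ≤ M := Real.sqrt_nonneg _
  have hR' : 0 ≤ 1 / (R : ℝ) := by positivity
  have s0 : 0 ≤ (8 : ℝ) + 4 * Real.log (2 * C + 1) := by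
    have : 0 ≤ Real.log (2 * (C : ℝ) + 1) := Real.log_nonneg (by linarith)
    linarith
  calc 1 / (R : ℝ) * (8 + 4 * Real.log (2 * C + 1)) * M *
        √(∑ c ∈ Ioc C (2 * C), ‖((ArithmeticFunction.vonMangoldt c : ℝ) : ℂ)‖ ^ 2) *
        √(∑ k ∈ Ioc 0 (x / C), ‖((bet V k : ℝ) : ℂ)‖ ^ 2)
      ≤ 1 / (R : ℝ) * (20 * Y) * M * (√C * Y) * (√((x / C : ℕ) : ℝ) * Y ^ 2) := by
        refine mul_le_mul (mul_le_mul (mul_le_mul_of_nonneg_right
          (mul_le_mul_of_nonneg_left f1 hR') hM0) fA (Real.sqrt_nonneg _) ?_) fB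
          (Real.sqrt_nonneg _) ?_
        · positivity
        · positivity
    _ = 20 * Y ^ 4 * (1 / (R : ℝ)) * (M * (√C * √((x / C : ℕ) : ℝ))) := by ring
    _ ≤ 20 * Y ^ 4 * (1 / (R : ℝ)) * (48 * R * Y * T) :=
        mul_le_mul_of_nonneg_left hk (by positivity)
    _ = 960 * Y ^ 5 * T := by
        field_simp
        ring

/-- **Row TY2**. -/
theorem ty2 (h1 : BltStmt) (h2 : TauStmt) : Ty2Stmt := by
  refine ⟨1920, by norm_num, ?_⟩
  intro R U V x P hR hRx hU hV hUx hP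
  have hx1 : (1 : ℝ) ≤ x := by exact_mod_cast (by omega : 1 ≤ x)
  have hlx : 0 ≤ Real.log x := Real.log_nonneg hx1
  have hx0 : x ≠ 0 := by omega
  set N := Nat.log 2 x + 1 with hN
  have hNx : x ≤ 2 ^ N * U := by
    have : x < 2 ^ N := Nat.lt_pow_succ_log_self (by norm_num) x
    nlinarith
  have e1 : ∀ l ∈ P, |S4 U V x (D l)| ≤ ∑ i ∈ range N, |∑ c ∈ Ioc (2 ^ i * U) (2 * (2 ^ i * U)),
      ∑ k ∈ Ioc V (x / c), ArithmeticFunction.vonMangoldt c * AV V k * D l (c * k)| := by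
    intro l _
    rw [S4_blocks U V x N (D l) hUx hNx]
    exact Finset.abs_sum_le_sum_abs _ _
  refine (Finset.sum_le_sum e1).trans ?_
  rw [Finset.sum_comm]
  have e2 : ∀ i ∈ range N, ∑ l ∈ P, |∑ c ∈ Ioc (2 ^ i * U) (2 * (2 ^ i * U)),
      ∑ k ∈ Ioc V (x / c), ArithmeticFunction.vonMangoldt c * AV V k * D l (c * k)| ≤
      960 * (1 + Real.log x) ^ 5 * ((x : ℝ) / R + x / √U + x / √V + √x * R) := fun i _ =>
    block_bound h1 h2 R U V x (2 ^ i * U) P hR hRx hU hV (Nat.le_mul_of_pos_left U (by positivity)) hP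
  refine (Finset.sum_le_sum e2).trans ?_
  rw [Finset.sum_const, Finset.card_range, nsmul_eq_mul]
  have hNb : (N : ℝ) ≤ 2 * (1 + Real.log x) := by
    have h3 : (2 : ℝ) ^ (Nat.log 2 x) ≤ x := by exact_mod_cast Nat.pow_log_le_self 2 hx0
    have h4 : (Nat.log 2 x : ℝ) * Real.log 2 ≤ Real.log x := by
      have := Real.log_le_log (by positivity) h3
      rwa [Real.log_pow] at this
    have h5 := Real.log_two_gt_d9
    rw [hN]
    push_cast
    have h6 : (0 : ℝ) ≤ (Nat.log 2 x : ℝ) := by positivity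
    nlinarith
  have hT0 : (0 : ℝ) ≤ (x : ℝ) / R + x / √U + x / √V + √x * R := by positivity
  have hY1 : 1 ≤ 1 + Real.log x := by linarith
  calc (N : ℝ) * (960 * (1 + Real.log x) ^ 5 * ((x : ℝ) / R + x / √U + x / √V + √x * R))
      ≤ (2 * (1 + Real.log x)) * (960 * (1 + Real.log x) ^ 5 *
          ((x : ℝ) / R + x / √U + x / √V + √x * R)) :=
        mul_le_mul_of_nonneg_right hNb (by positivity)
    _ = 1920 * (1 + Real.log x) ^ 6 * ((x : ℝ) / R + x / √U + x / √V + √x * R) := by ring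
    _ ≤ 1920 * (1 + Real.log x) ^ 8 * ((x : ℝ) / R + x / √U + x / √V + √x * R) := by
        refine mul_le_mul_of_nonneg_right (mul_le_mul_of_nonneg_left ?_ (by norm_num)) hT0
        exact pow_le_pow_right₀ hY1 (by norm_num)

end Pool.Agent.EWG.H11
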